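import Mathlib
import Pool.Agent.W245.EB.InfTail

/-!
# Subgroups of infinite rank on which Grothendieck's conjecture holds in bounded degree

Let `Λ` be a group of infinite rank of logarithms of algebraic numbers, let `E_c = ℂ/Ω_c` (`c ∈ ℕ`) be
any sequence of elliptic curves over the algebraic numbers with complex multiplication, and for each
`c` let `Γ_c` be a group of elliptic logarithms of algebraic points of `E_c`, stable under
multiplication by some non-real `α_c ∈ End(E_c)` and of infinite rank over `End(E_c)`. Let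
`v_0, v_1, …` be *any* sequence of complex numbers, for instance an enumeration of the (countably
many) periods of all Nori motives over the algebraic numbers.

Then there are independent elements `t_i ∈ Λ`, `p_{c,i} ∈ Γ_c` (`i ∈ ℕ`) such that for every `D` and
for all elements `x_l` of the group generated by the `t_i`, `i ≥ D`, and `y_j` of the groups generated
by the `p_{c,i}`, `α_c p_{c,i}`, `i ≥ D`, independent in the obvious sense, the numbers
`x_l`, `y_j`, `ζ(y_j)` satisfy no nontrivial polynomial relation of total degree at most `D` with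
coefficients in the space spanned over the algebraic numbers by `v_0, …, v_D`.

The proof contains complete formalizations of the theorems on linear forms in logarithms
(`Pool.Agent.H297R2.BakerThm`), in elliptic logarithms and in integrals of the second kind which are
used (`Pool.Agent.W245.EB.RedZ`), and of the action of complex multiplication on `ζ`
(`Pool.Agent.W245.EB.CMz2`).
-/

open scoped PeriodPair

noncomputable section

namespace Pool.Agent.Results.MP_ae0f86_nt.UniversalSubgroups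

/-- The field of algebraic numbers. -/
abbrev Qbar : IntermediateField ℚ ℂ := algebraicClosure ℚ ℂ

/-- The Weierstrass zeta function
`ζ(z) = 1/z + ∑_{l ≠ 0} (1/(z - l) + 1/l + z/l²)` (in Lean `1/0 = 0`, so that the term with `l = 0`
of the sum below is `1/z`). -/
def zetaW (L : PeriodPair) (z : ℂ) : ℂ := ∑' l : L.lattice, (1 / (z - l) + 1 / l + z / l ^ 2)

/-- `β` belongs to the field `k = End(ℂ/Ω) ⊗ ℚ`: some multiple `m β`, `m ≥ 1`, maps the lattice `Ω`
to itself. -/
def IsMult (L : PeriodPair) (β : ℂ) : Prop :=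
  ∃ m : ℕ, 0 < m ∧ ∀ ω ∈ L.lattice, (m : ℂ) * β * ω ∈ L.lattice

/-- The numbers `w_j` are linearly independent over `k`. -/
def IndepMult (L : PeriodPair) {R : ℕ} (w : Fin R → ℂ) : Prop :=
  ∀ β : Fin R → ℂ, (∀ j, IsMult L (β j)) → ∑ j, β j * w j = 0 → ∀ j, β j = 0

/-- The points `y_j` of the curves with indices `c_j` are independent: for each curve, those which
belong to it are linearly independent over its field of multiplications. -/
def IndepPoints (L : ℕ → PeriodPair) {n : ℕ} (c : Fin n → ℕ) (y : Fin n → ℂ) : Prop :=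
  ∀ β : Fin n → ℂ, (∀ j, IsMult (L (c j)) (β j)) →
    (∀ b : ℕ, ∑ j, (if c j = b then β j * y j else 0) = 0) → ∀ j, β j = 0

open Pool.Agent.W245.EB

/-- **Main result.** -/
theorem result (v : ℕ → ℂ)
    -- logarithms of algebraic numbers
    (Λ : AddSubgroup ℂ) (hΛ : ∀ x ∈ Λ, IsAlgebraic ℚ (Complex.exp x))
    (rΛ : ∀ R : ℕ, ∃ w : Fin R → ℂ, (∀ j, w j ∈ Λ) ∧ LinearIndependent ℚ w)
    -- elliptic curves with complex multiplication and elliptic logarithms
    (L : ℕ → PeriodPair) (h2 : ∀ c, IsAlgebraic ℚ (L c).g₂) (h3 : ∀ c, IsAlgebraic ℚ (L c).g₃)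
    (α : ℕ → ℂ) (hα : ∀ c, (α c).im ≠ 0) (hmul : ∀ c, ∀ ω ∈ (L c).lattice, α c * ω ∈ (L c).lattice)
    (Γ : ℕ → AddSubgroup ℂ)
    (hΓ : ∀ c, ∀ u ∈ Γ c, u ∈ (L c).lattice ∨ IsAlgebraic ℚ (℘[L c] u))
    (hΓα : ∀ c, ∀ u ∈ Γ c, α c * u ∈ Γ c)
    (rΓ : ∀ c R : ℕ, ∃ w : Fin R → ℂ, (∀ j, w j ∈ Γ c) ∧ IndepMult (L c) w) :
    ∃ (t : ℕ → ℂ) (p : ℕ → ℕ → ℂ), (∀ i, t i ∈ Λ) ∧ (∀ c i, p c i ∈ Γ c) ∧
      LinearIndependent ℚ t ∧ (∀ c R, IndepMult (L c) (fun i : Fin R => p c i)) ∧
      ∀ (D s n : ℕ) (x : Fin s → ℂ) (c : Fin n → ℕ) (y : Fin n → ℂ),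
        (∀ l, x l ∈ AddSubgroup.closure {a | ∃ i, D ≤ i ∧ a = t i}) →
        (∀ j, y j ∈ AddSubgroup.closure
          {u | ∃ i, D ≤ i ∧ (u = p (c j) i ∨ u = α (c j) * p (c j) i)}) →
        LinearIndependent ℚ x → IndepPoints L c y →
        (∀ j, y j ∉ (L (c j)).lattice) ∧
        ∀ Q : MvPolynomial (Fin s ⊕ (Fin n ⊕ Fin n)) ℂ, Q.totalDegree ≤ D →
          (∀ e, Q.coeff e ∈ Submodule.span Qbar (v '' Set.Iic D)) →
          MvPolynomial.eval (Sum.elim x (Sum.elim y fun j => zetaW (L (c j)) (y j))) Q = 0 →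
          Q = 0 := by
  classical
  let S : Sys :=
    { Λ := Λ
      hΛ := hΛ
      rΛ := rΛ
      LB := L
      g2B := h2
      g3B := h3
      ΓB := Γ
      hB := hΓ
      rB := fun b R => by
        obtain ⟨w, h4, h5⟩ := rΓ b R
        exact ⟨w, h4, fun j => hΓ b _ (h4 j), fun β hβ h0 => funext fun j => h5 β hβ h0 j⟩
      s := fun _ => 1
      ρ := fun _ => 0
      hs := fun _ => isAlgebraic_one
      hρ := fun _ => isAlgebraic_zero
      hsρ := fun _ => Or.inl one_ne_zero
      LC := L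
      g2C := h2
      g3C := h3
      α := α
      hα := hα
      hmul := hmul
      ΓC := Γ
      hC := hΓ
      hCα := hΓα
      rC := fun b R => by
        obtain ⟨w, h4, h5⟩ := rΓ b R
        exact ⟨w, h4, fun j => hΓ b _ (h4 j), fun β hβ h0 => funext fun j => h5 β hβ h0 j⟩ }
  obtain ⟨ch⟩ := exists_chain S v
  refine ⟨ch.t, ch.ptC, ch.ht, fun c i => ch.hqC _ _, ch.t_indep,
    fun c R β hβ h0 j => congrFun (ch.ptC_indep c R β hβ h0) j, ?_⟩
  intro D s n x c y hx hy hxi hyi
  -- representations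
  have hxr := fun l => Rep.of_closure (hx l)
  choose nn Kx hn0 hnx using hxr
  have hyr : ∀ j, RepC (α (c j)) (fun i => ch.qC i (c j)) (D + c j) (y j) := by
    intro j
    apply RepC.of_closure
    refine AddSubgroup.closure_mono ?_ (hy j)
    rintro u ⟨i, hi, h⟩
    exact ⟨c j + i, by omega, h⟩
  choose μ μ' Ky hμ0 hμy using hyr
  set K : ℕ := ∑ l, Kx l + ∑ j, Ky j with hK
  have hKx : ∀ l, Kx l ≤ K := fun l =>
    (Finset.single_le_sum (fun _ _ => Nat.zero_le _) (Finset.mem_univ l)).trans (Nat.le_add_right _ _)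
  have hKy : ∀ j, Ky j ≤ K := fun j =>
    (Finset.single_le_sum (f := Ky) (fun _ _ => Nat.zero_le _) (Finset.mem_univ j)).trans
      (Nat.le_add_left _ _)
  have hsep : SepIndep S.LC c y := fun β hβ h0 => funext fun j => hyi β hβ h0 j
  have hnot : ∀ j, y j ∉ (L (c j)).lattice := fun j =>
    ch.notMem_C (c j) K (μ j) (μ' j) (fun i hi => hμ0 j i (by omega)) (y j) (hμy j K (hKy j))
      (hsep.ne_zero j)
  refine ⟨hnot, ?_⟩
  have hcore := ch.core D K (ιL := Fin s) (ιB := Fin 0) (ιC := Fin n) nn hn0 x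
    (fun l => hnx l K (hKx l)) hxi (fun j => j.elim0) (fun j => j.elim0) (fun j => j.elim0)
    (fun j => j.elim0) (fun j => j.elim0) (fun g _ => funext fun j => j.elim0)
    c μ μ' hμ0 y (fun j => hμy j K (hKy j)) hsep
  have h5 : NoRelTot (ch.A D ^ (D + 1)) D
      (Sum.elim x (Sum.elim y (fun j => zt (L (c j)) (y j)))) := by
    have h6 := hcore.comp (fun i : Fin s ⊕ (Fin n ⊕ Fin n) =>
      (Sum.elim Sum.inl (fun k => Sum.inr (Sum.inr k)) i : Fin s ⊕ (Fin 0 ⊕ (Fin n ⊕ Fin n))))
      (by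
        rintro (a | a) (b | b) hab
        · simp only [Sum.elim_inl] at hab
          rw [Sum.inl_injective hab]
        · simp at hab
        · simp at hab
        · simp only [Sum.elim_inr] at hab
          rw [Sum.inr_injective (Sum.inr_injective hab)])
    have h7 : (fun i : Fin s ⊕ (Fin n ⊕ Fin n) => (Sum.elim x (Sum.elim
        (fun j : Fin 0 => S.s (j.elim0) * zt (S.LB (j.elim0)) (j.elim0) + S.ρ (j.elim0) * (j.elim0))
        (Sum.elim y (fun j => zt (S.LC (c j)) (y j)))) : Fin s ⊕ (Fin 0 ⊕ (Fin n ⊕ Fin n)) → ℂ)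
          (Sum.elim Sum.inl (fun k => Sum.inr (Sum.inr k)) i)) =
        Sum.elim x (Sum.elim y (fun j => zt (L (c j)) (y j))) := by
      funext i
      rcases i with i | i | i <;> rfl
    rw [← h7]
    exact h6
  intro Q hQ hcoef h0
  apply h5 Q hQ
  · intro e
    have h6 : Submodule.span Qbar (v '' Set.Iic D) ≤ ch.A D ^ (D + 1) := by
      rw [Submodule.span_le]
      rintro _ ⟨i, hi, rfl⟩
      exact ch.le_pow D (D + 1) (by omega) (ch.mono hi (ch.hv i))
    exact h6 (hcoef e)
  · have h6 : (fun j => zetaW (L (c j)) (y j)) = fun j => zt (L (c j)) (y j) := by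
      funext j
      rw [zt_of_notMem (hnot j)]
      rfl
    rw [← h6]
    exact h0

end Pool.Agent.Results.MP_ae0f86_nt.UniversalSubgroups
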